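import Pool.Agent.X119.Cong

/-!
# The conjunction of the congruences (a), (b), (c) fails: (c) is false for `p = 11`
-/

set_option autoImplicit false

namespace Pool.Agent.Results.MP_f8e877_nt.CongruenceCFails

open Finset Pool.Agent.X119.Cong

/-- `A_k = C(2k, k) C(3k, k)` -/
def A (k : ℕ) : ℚ := ((2 * k).choose k : ℚ) * ((3 * k).choose k : ℚ)

/-- `B_k = C(2k, k) ^ 2` -/
def B (k : ℕ) : ℚ := ((2 * k).choose k : ℚ) ^ 2

/-- `u_k = 512 ^ (-k) T_k(18, 1)` -/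
def u (k : ℕ) : ℚ := (T k 18 1 : ℚ) / 512 ^ k

/-- `v_k = (-512) ^ (-k) T_(3k)(6, 1)` -/
def v (k : ℕ) : ℚ := (T (3 * k) 6 1 : ℚ) / (-512) ^ k

/-- `S = ∑_{k < p} A_k u_k` -/
def S (p : ℕ) : ℚ := ∑ k ∈ range p, A k * u k

/-- `S' = ∑_{k < p} A_k v_k` -/
def S' (p : ℕ) : ℚ := ∑ k ∈ range p, A k * v k

/-- (a) of the problem for the prime `p` -/
def StatementA (p : ℕ) : Prop :=
  Cong p 2 (S p) (jacobiSym 10 p * S' p) ∧
  (jacobiSym p 5 = 1 → jacobiSym p 7 = 1 → ∀ x y : ℤ, 4 * (p : ℤ) = x ^ 2 + 35 * y ^ 2 →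
    Cong p 2 (S p) (x ^ 2 - 2 * p)) ∧
  (jacobiSym p 5 = -1 → jacobiSym p 7 = -1 → ∀ x y : ℤ, 4 * (p : ℤ) = 5 * x ^ 2 + 7 * y ^ 2 →
    Cong p 2 (S p) (2 * p - 5 * x ^ 2)) ∧
  (jacobiSym p 35 = -1 → Cong p 2 (S p) 0)

/-- (b) of the problem for the prime `p` -/
def StatementB (p : ℕ) : Prop :=
  Cong p 2 (∑ k ∈ range p, (35 * k + 9) * A k * u k) (9 / 2 * p * (7 - 5 * jacobiSym p 5))

/-- (c) of the problem for the prime `p` -/
def StatementC (p : ℕ) : Prop :=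
  Cong p 2 (∑ k ∈ range p, (35 * k + 9) * B k * v k) (9 / 32 * p * jacobiSym 2 p * (25 + 7 * jacobiSym p 7))

/-- a form of the sum in (c) for computations -/
def sumC (p : ℕ) : ℚ :=
  ∑ k ∈ range p, (35 * (k : ℚ) + 9) * (ch (2 * k) k : ℚ) ^ 2 * ((T' (3 * k) 6 1 : ℚ) / (-512) ^ k)

theorem sum_eq (p : ℕ) : ∑ k ∈ range p, (35 * (k : ℚ) + 9) * B k * v k = sumC p := by
  unfold sumC
  refine sum_congr rfl fun k _ => ?_
  rw [B, v, T_eq, ch_eq]

theorem fail11 : ¬ StatementC 11 := by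
  unfold StatementC
  rw [sum_eq]
  refine not_cong' (z := -99) ?_ (by decide +kernel)
  have h1 : jacobiSym 2 11 = -1 := by norm_num
  have h2 : jacobiSym ((11 : ℕ) : ℤ) 7 = 1 := by norm_num
  rw [h1, h2]
  norm_num

theorem fail13 : ¬ StatementC 13 := by
  unfold StatementC
  rw [sum_eq]
  refine not_cong' (z := -(9 * 13 * 18 / 32)) ?_ (by decide +kernel)
  have h1 : jacobiSym 2 13 = -1 := by norm_num
  have h2 : jacobiSym ((13 : ℕ) : ℤ) 7 = -1 := by norm_num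
  rw [h1, h2]
  norm_num

theorem fail17 : ¬ StatementC 17 := by
  unfold StatementC
  rw [sum_eq]
  refine not_cong' (z := 9 * 17 * 18 / 32) ?_ (by decide +kernel)
  have h1 : jacobiSym 2 17 = 1 := by norm_num
  have h2 : jacobiSym ((17 : ℕ) : ℤ) 7 = -1 := by norm_num
  rw [h1, h2]
  norm_num

theorem fail19 : ¬ StatementC 19 := by
  unfold StatementC
  rw [sum_eq]
  refine not_cong' (z := -(9 * 19 * 18 / 32)) ?_ (by decide +kernel)
  have h1 : jacobiSym 2 19 = -1 := by norm_num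
  have h2 : jacobiSym ((19 : ℕ) : ℤ) 7 = -1 := by norm_num
  rw [h1, h2]
  norm_num

/-- The congruence (c) fails for `p = 11, 13, 17, 19`, so that it is false that (a), (b) and (c) hold for every prime
`p > 7`. -/
theorem result :
    (¬ StatementC 11 ∧ ¬ StatementC 13 ∧ ¬ StatementC 17 ∧ ¬ StatementC 19) ∧
    ¬ ∀ p : ℕ, p.Prime → 7 < p → StatementA p ∧ StatementB p ∧ StatementC p :=
  ⟨⟨fail11, fail13, fail17, fail19⟩, fun h => fail11 (h 11 (by norm_num) (by norm_num)).2.2⟩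

end Pool.Agent.Results.MP_f8e877_nt.CongruenceCFails
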